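import Pool.Agent.H104.ML.Stm

/-!
# Project ML: the job PAT (number of integer vectors of small norm)
-/

set_option autoImplicit false

open Finset

namespace Pool.Agent.Q149.ML

open Pool.Agent.H104.ML

lemma exp_neg_five : Real.exp (-5) ≤ 1 / 80 := by
  rw [Real.exp_neg, one_div]
  apply inv_anti₀ (by norm_num)
  have h1 : Real.exp 5 = Real.exp 1 ^ 5 := by
    rw [← Real.exp_nat_mul]
    norm_num
  rw [h1]
  have h2 : (2.7 : ℝ) ≤ Real.exp 1 := by
    have := Real.exp_one_gt_d9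
    linarith
  calc (80 : ℝ) ≤ 2.7 ^ 5 := by norm_num
    _ ≤ Real.exp 1 ^ 5 := pow_le_pow_left₀ (by norm_num) h2 5

lemma term_le (N : ℕ) : Real.exp (-5 * ((N : ℝ) + 1) ^ 2) ≤ 1 / 80 * (1 / 2) ^ N := by
  have h1 : Real.exp (-5 * ((N : ℝ) + 1) ^ 2) ≤ Real.exp (-5) ^ (N + 1) := by
    rw [← Real.exp_nat_mul]
    apply Real.exp_le_exp.2
    push_cast
    have : (0 : ℝ) ≤ N := Nat.cast_nonneg N
    nlinarith
  refine h1.trans ?_
  have h2 : Real.exp (-5) ^ (N + 1) ≤ (1 / 80 : ℝ) ^ (N + 1) :=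
    pow_le_pow_left₀ (Real.exp_pos _).le exp_neg_five _
  refine h2.trans ?_
  rw [pow_succ, mul_comm]
  apply mul_le_mul_of_nonneg_left _ (by norm_num)
  exact pow_le_pow_left₀ (by norm_num) (by norm_num) N

lemma sum_le (N : ℕ) : ∑ i ∈ Icc (-(N : ℤ)) N, Real.exp (-5 * (i : ℝ) ^ 2) ≤
    21 / 20 - 1 / 20 * (1 / 2) ^ N := by
  induction N with
  | zero => norm_num
  | succ N ih =>
    have h : Icc (-((N + 1 : ℕ) : ℤ)) ((N + 1 : ℕ) : ℤ) =
        insert ((N + 1 : ℕ) : ℤ) (insert (-((N + 1 : ℕ) : ℤ)) (Icc (-(N : ℤ)) N)) := by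
      ext i
      simp only [mem_Icc, mem_insert]
      push_cast
      omega
    rw [h, sum_insert, sum_insert]
    · have h1 := term_le N
      have e1 : (((N + 1 : ℕ) : ℤ) : ℝ) = (N : ℝ) + 1 := by push_cast; ring
      have e2 : ((-((N + 1 : ℕ) : ℤ) : ℤ) : ℝ) = -((N : ℝ) + 1) := by push_cast; ring
      rw [e1, e2, neg_sq, pow_succ (1 / 2 : ℝ) N]
      linarith
    · simp only [mem_Icc]
      push_cast
      omega
    · simp only [mem_insert, mem_Icc]
      push_cast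
      omega

theorem t_PAT : S_PAT := by
  intro n K hK
  have hbox : K ⊆ Fintype.piFinset (fun _ : Fin n => Icc (-(n : ℤ)) n) := by
    intro k hk
    rw [Fintype.mem_piFinset]
    intro j
    have h1 := hK k hk
    have h2 : k j ^ 2 ≤ ∑ j, k j ^ 2 :=
      single_le_sum (f := fun j => k j ^ 2) (fun i _ => sq_nonneg (k i)) (mem_univ j)
    have h3 : (k j) ^ 2 ≤ n := by
      have := sq_nonneg (k j)
      linarith
    rw [mem_Icc]
    constructor
    · by_contra hcon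
      have h4 : k j ≤ -(n : ℤ) - 1 := by omega
      have h5 : (0 : ℤ) ≤ n := Int.natCast_nonneg n
      nlinarith
    · by_contra hcon
      have h4 : (n : ℤ) + 1 ≤ k j := by omega
      have h5 : (0 : ℤ) ≤ n := Int.natCast_nonneg n
      nlinarith
  have h1 : ∀ k ∈ K, (1 : ℝ) ≤ Real.exp ((n : ℝ) / 20) *
      ∏ j, Real.exp (-5 * ((k j : ℤ) : ℝ) ^ 2) := by
    intro k hk
    rw [← Real.exp_sum, ← Real.exp_add]
    apply Real.one_le_exp
    rw [← mul_sum]
    have h2 : (100 : ℝ) * ∑ j, ((k j : ℤ) : ℝ) ^ 2 ≤ n := by exact_mod_cast hK k hk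
    linarith
  calc (K.card : ℝ) = ∑ _k ∈ K, (1 : ℝ) := by simp
    _ ≤ ∑ k ∈ K, Real.exp ((n : ℝ) / 20) * ∏ j, Real.exp (-5 * ((k j : ℤ) : ℝ) ^ 2) :=
        sum_le_sum h1
    _ = Real.exp ((n : ℝ) / 20) * ∑ k ∈ K, ∏ j, Real.exp (-5 * ((k j : ℤ) : ℝ) ^ 2) := by
        rw [mul_sum]
    _ ≤ Real.exp ((n : ℝ) / 20) * ∑ k ∈ Fintype.piFinset (fun _ : Fin n => Icc (-(n : ℤ)) n),
          ∏ j, Real.exp (-5 * ((k j : ℤ) : ℝ) ^ 2) := by
        apply mul_le_mul_of_nonneg_left _ (Real.exp_pos _).le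
        exact sum_le_sum_of_subset_of_nonneg hbox (fun k _ _ =>
          prod_nonneg fun j _ => (Real.exp_pos _).le)
    _ = Real.exp ((n : ℝ) / 20) *
          ∏ _j : Fin n, ∑ i ∈ Icc (-(n : ℤ)) n, Real.exp (-5 * (i : ℝ) ^ 2) := by
        rw [Finset.prod_univ_sum]
    _ = Real.exp ((n : ℝ) / 20) *
          (∑ i ∈ Icc (-(n : ℤ)) n, Real.exp (-5 * (i : ℝ) ^ 2)) ^ n := by
        rw [prod_const, card_univ, Fintype.card_fin]
    _ ≤ Real.exp ((n : ℝ) / 20) * (Real.exp (1 / 20)) ^ n := by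
        apply mul_le_mul_of_nonneg_left _ (Real.exp_pos _).le
        apply pow_le_pow_left₀ (sum_nonneg fun i _ => (Real.exp_pos _).le)
        have h3 := sum_le n
        have h4 : (0 : ℝ) ≤ 1 / 20 * (1 / 2) ^ n := by positivity
        have h5 := Real.add_one_le_exp (1 / 20 : ℝ)
        linarith
    _ = Real.exp ((n : ℝ) / 10) := by
        rw [← Real.exp_nat_mul, ← Real.exp_add]
        congr 1
        ring

end Pool.Agent.Q149.ML
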